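import Pool.Graph.R_seed8.R660.CF.Tilde
import Pool.Agent.H16E.Extremal
import Pool.Agent.H16E.Strict2

/-!
# Monotonicity of the entropy of `(a,b)`-continued fraction maps: classification, unimodality

`InP a b` is `(a, b) ∈ 𝒫`, `ft e a b` is the map of `[-1, 1]` of the problem, `Dt e a b n` is the
set `D_n`, and `lapsC e a b n` is the number of connected components of `(-1, 1) \ D_n`.
-/

set_option autoImplicit false

namespace Pool.Agent.Results.MP_c34b65_an.SharpThreshold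

open Filter Topology Set Pool.Agent.R660.CF Pool.Agent.R294.CF Pool.Agent.H16E

theorem exists_kappa : ∃ κ : ℝ, κ ^ 3 = κ ^ 2 + 1 ∧ 1 ≤ κ := by
  have hc : ContinuousOn (fun x : ℝ => x ^ 3 - x ^ 2 - 1) (Icc 1 2) := by fun_prop
  obtain ⟨κ, hκ1, hκ⟩ := intermediate_value_Icc (by norm_num : (1 : ℝ) ≤ 2) hc
    (show (0 : ℝ) ∈ Icc ((fun x : ℝ => x ^ 3 - x ^ 2 - 1) 1) ((fun x : ℝ => x ^ 3 - x ^ 2 - 1) 2) by
      norm_num)
  have hκ' : κ ^ 3 - κ ^ 2 - 1 = 0 := hκ
  exact ⟨κ, by linarith, hκ1.1⟩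

/-- For `0 < b ≤ 1/2` the entropy on `[-1/b, -⌊1/b⌋]` is smaller than at `-1`. -/
theorem section_lt {a b κ : ℝ} (hκ : κ ^ 3 = κ ^ 2 + 1) (hκ1 : 1 ≤ κ) (hb0 : 0 < b)
    (hb : b ≤ 1 / 2) (hP : InP a b) (ha : a ≤ -(⌊1 / b⌋₊ : ℝ)) :
    InP (-1) b ∧ ent a b < ent (-1) b := by
  have hinv : 2 ≤ 1 / b := by
    rw [le_div_iff₀ hb0]; linarith
  have hN2 : 2 ≤ ⌊1 / b⌋₊ := Nat.le_floor (by exact_mod_cast hinv)
  have hfl : (⌊1 / b⌋₊ : ℝ) ≤ 1 / b := Nat.floor_le (by positivity)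
  have hlt : 1 / b < (⌊1 / b⌋₊ : ℝ) + 1 := Nat.lt_floor_add_one _
  obtain ⟨M, hM⟩ : ∃ M, ⌊1 / b⌋₊ = M + 2 := ⟨⌊1 / b⌋₊ - 2, by omega⟩
  rw [hM] at hfl hlt ha
  push_cast at hfl hlt ha
  have hM0 : (0 : ℝ) ≤ M := by positivity
  have hM2 : (0 : ℝ) < (M : ℝ) + 2 := by positivity
  have hM3 : (0 : ℝ) < (M : ℝ) + 3 := by positivity
  have hQ : InP (-1) b := InP_neg_one hb0.le (by linarith)
  refine ⟨hQ, ?_⟩
  have h1 : ent a b ≤ ent (-((M : ℝ) + 2)) (1 / ((M : ℝ) + 2)) := by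
    refine left_mono (InP_M M) hP ha ?_ (by linarith) ?_
    · rw [le_div_iff₀ hM2]
      rw [le_div_iff₀ hb0] at hfl
      linarith
    · rw [div_le_one hM2]; linarith
  have h2 : ent (-1) (1 / ((M : ℝ) + 3)) ≤ ent (-1) b := by
    refine left_mono hQ (InP_one_M M) le_rfl ?_ (by norm_num) (by linarith)
    rw [div_le_iff₀ hM3]
    rw [div_lt_iff₀ hb0] at hlt
    linarith
  exact (h1.trans_lt (ent_strict M hκ hκ1)).trans_le h2

/-- There is a function `H` on the parameter set `𝒫` such that `D_n` is finite and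
`log ℓ_n / n → H (a, b)` for every `(a, b)` in `𝒫` (whichever of the two values `1`, `-1` is used
for the middle branch at its jump `0`), and:
(1) for every `b ≥ 0`, the function `a ↦ H (a, b)` is non-decreasing on the set of the `a` with
`(a, b) ∈ 𝒫` **if and only if** `b ≤ 1/2`; (1a) it is non-increasing if and only if `b = 0` or
`b ≥ 1`; (1b) it is constant if and only if `b = 0`; (1c) for `0 < b ≤ 1/2` and `a ≤ -⌊1/b⌋`,
`H (a, b) < H (-1, b)`;
(2) for every `b ≥ 0` the function `a ↦ H (a, b)` is unimodal (first non-decreasing, then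
non-increasing) on this set, which is an interval: its value at an intermediate point is at least
the smaller one of the values at the two other points; (3) the same in the variable `b`;
(4) `H ≤ log φ`, and for `b` in `[1/2, 1]` the function `a ↦ H (a, b)` is non-decreasing for
`a ≤ -1/2`, non-increasing for `a ≥ -1`, and attains its maximum `log φ` exactly on `[-1, -1/2]`;
(5) for `b ≥ 1` it is non-increasing, and non-constant; (6) for `0 ≤ b < 1/2`, `H (a, b) < log φ`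
for all `a`. -/
theorem result : ∃ H : ℝ × ℝ → ℝ,
    (∀ e a b : ℝ, (e = 1 ∨ e = -1) → InP a b →
      (∀ n : ℕ, (Dt e a b n).Finite) ∧
      Tendsto (fun n : ℕ => Real.log (lapsC e a b n) / n) atTop (𝓝 (H (a, b)))) ∧
    (∀ b : ℝ, 0 ≤ b → (MonotoneOn (fun a : ℝ => H (a, b)) {a : ℝ | InP a b} ↔ b ≤ 1 / 2)) ∧
    (∀ b : ℝ, 0 ≤ b → (AntitoneOn (fun a : ℝ => H (a, b)) {a : ℝ | InP a b} ↔ b = 0 ∨ 1 ≤ b)) ∧
    (∀ b : ℝ, 0 ≤ b → ((∀ a a' : ℝ, InP a b → InP a' b → H (a, b) = H (a', b)) ↔ b = 0)) ∧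
    (∀ a b : ℝ, 0 < b → b ≤ 1 / 2 → InP a b → a ≤ -(⌊1 / b⌋₊ : ℝ) →
      InP (-1) b ∧ H (a, b) < H (-1, b)) ∧
    (∀ a₁ a₂ a₃ b : ℝ, InP a₁ b → InP a₃ b → a₁ ≤ a₂ → a₂ ≤ a₃ →
      InP a₂ b ∧ min (H (a₁, b)) (H (a₃, b)) ≤ H (a₂, b)) ∧
    (∀ a b₁ b₂ b₃ : ℝ, InP a b₁ → InP a b₃ → b₁ ≤ b₂ → b₂ ≤ b₃ →
      InP a b₂ ∧ min (H (a, b₁)) (H (a, b₃)) ≤ H (a, b₂)) ∧
    (∀ a b : ℝ, InP a b → H (a, b) ≤ Real.log ((1 + √5) / 2)) ∧
    (∀ b : ℝ, 1 / 2 ≤ b → b ≤ 1 →
      MonotoneOn (fun a : ℝ => H (a, b)) {a : ℝ | InP a b ∧ a ≤ -1 / 2} ∧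
      AntitoneOn (fun a : ℝ => H (a, b)) {a : ℝ | InP a b ∧ -1 ≤ a} ∧
      {a : ℝ | InP a b ∧ H (a, b) = Real.log ((1 + √5) / 2)} = Icc (-1) (-1 / 2)) ∧
    (∀ b : ℝ, 1 ≤ b → AntitoneOn (fun a : ℝ => H (a, b)) {a : ℝ | InP a b} ∧
      InP (-1 / b) b ∧ InP 0 b ∧ H (0, b) < H (-1 / b, b)) ∧
    (∀ a b : ℝ, InP a b → b < 1 / 2 → H (a, b) < Real.log ((1 + √5) / 2)) := by
  obtain ⟨κ, hκ3, hκ1⟩ := exists_kappa
  have hlt : ∀ a b : ℝ, InP a b → ¬ (a ∈ Icc (-1) (-1 / 2) ∧ b ∈ Icc (1 / 2) 1) →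
      ent a b < Real.log ((1 + √5) / 2) := fun a b hab hn =>
    lt_of_le_of_ne (entropy_le hab (ent_spec hab)) fun h => hn ((ent_eq_max_iff hab).1 h)
  have hbig : ∀ b : ℝ, 1 ≤ b → InP (-1 / b) b ∧ InP 0 b ∧ ent 0 b < ent (-1 / b) b := by
    intro b hb
    have hb0 : 0 < b := by linarith
    have e1 : -1 / b * b = -1 := by field_simp
    have e2 : -1 / b < 0 := div_neg_of_neg_of_pos (by norm_num) hb0
    have hP : InP (-1 / b) b := ⟨e2.le, hb0.le, by linarith, by linarith⟩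
    have hP0 : InP 0 b := ⟨le_rfl, hb0.le, by linarith, by linarith⟩
    refine ⟨hP, hP0, ?_⟩
    rw [(ent_eq_min_iff hκ3 hκ1 hP0).2 (Or.inl rfl)]
    refine lt_of_le_of_ne (entropy_ge hP hκ3 hκ1 (ent_spec hP)) fun h => ?_
    rcases (ent_eq_min_iff hκ3 hκ1 hP).1 h.symm with h' | h'
    · exact e2.ne h'
    · exact hb0.ne' h'
  -- for `0 < b < 1` the function increases somewhere
  have hinc : ∀ b : ℝ, 0 < b → b < 1 → InP (-1 / b) b ∧ InP (-1) b ∧
      ent (-1 / b) b < ent (-1) b := by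
    intro b hb0 hb1
    rcases le_or_gt b (1 / 2) with h2 | h2
    · exact ent_section_lt hκ3 hκ1 hb0 h2
    · have e1 : -1 / b * b = -1 := by field_simp
      have e2 : -1 / b < -1 := by
        rw [div_lt_iff₀ hb0]; linarith
      have hP : InP (-1 / b) b := ⟨by linarith, hb0.le, by linarith, by linarith⟩
      have hQ : InP (-1) b := InP_neg_one hb0.le hb1.le
      refine ⟨hP, hQ, ?_⟩
      rw [ent_square le_rfl (by norm_num) h2.le hb1.le]
      exact hlt _ _ hP (fun h => by linarith [h.1.1])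
  have hzero : ∀ a : ℝ, InP a 0 → ent a 0 = Real.log κ := fun a ha =>
    (ent_eq_min_iff hκ3 hκ1 ha).2 (Or.inr rfl)
  refine ⟨fun p => ent p.1 p.2, ?_, ?_, ?_, ?_, ?_, ?_, ?_, ?_, ?_, ?_, ?_⟩
  · intro e a b _ hab
    refine ⟨fun n => Dt_finite hab n, ?_⟩
    rw [entropy_lapsC hab]
    exact ent_spec hab
  · intro b hb
    constructor
    · intro hmono
      by_contra hcon
      push Not at hcon
      rcases le_or_gt b 1 with hb1 | hb1
      · have hP : InP (-1 / 2) b := InP_square (by norm_num) le_rfl hcon.le hb1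
        have hQ : InP (b - 1) b := ⟨by linarith, hb, by linarith, by nlinarith⟩
        have h1 : ent (-1 / 2) b ≤ ent (b - 1) b :=
          hmono (show (-1 / 2 : ℝ) ∈ {a : ℝ | InP a b} from hP)
            (show b - 1 ∈ {a : ℝ | InP a b} from hQ) (by linarith)
        have h2 := hlt (b - 1) b hQ (fun h => by linarith [h.1.2])
        rw [ent_square (by norm_num) le_rfl hcon.le hb1] at h1
        linarith
      · obtain ⟨h1, h2, h3⟩ := hbig b hb1.le
        have h4 : ent (-1 / b) b ≤ ent 0 b :=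
          hmono (show -1 / b ∈ {a : ℝ | InP a b} from h1)
            (show (0 : ℝ) ∈ {a : ℝ | InP a b} from h2) h1.1
        linarith
    · intro hb2 a' ha' a ha haa
      have hP : InP a b := ha
      exact left_a ha ha' haa (by linarith [hP.2.2.1]) (by linarith)
  · intro b hb
    constructor
    · intro hanti
      by_contra hcon
      push Not at hcon
      have hb0 : 0 < b := lt_of_le_of_ne hb (Ne.symm hcon.1)
      obtain ⟨h1, h2, h3⟩ := hinc b hb0 hcon.2
      have h4 : -1 / b ≤ -1 := by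
        rw [div_le_iff₀ hb0]; linarith [hcon.2]
      have h5 : ent (-1) b ≤ ent (-1 / b) b :=
        hanti (show -1 / b ∈ {a : ℝ | InP a b} from h1)
          (show (-1 : ℝ) ∈ {a : ℝ | InP a b} from h2) h4
      linarith
    · rintro (h | h)
      · subst h
        intro a' ha' a ha _
        exact le_of_eq ((hzero a ha).trans (hzero a' ha').symm)
      · intro a' ha' a ha haa
        have hP : InP a' b := ha'
        obtain ⟨h1, h2, h3, h4⟩ := hP
        exact right_anti ha ha' haa le_rfl (by nlinarith) (by linarith)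
  · intro b hb
    constructor
    · intro hc
      by_contra hcon
      have hb0 : 0 < b := lt_of_le_of_ne hb (Ne.symm hcon)
      rcases lt_or_ge b 1 with h1 | h1
      · obtain ⟨k1, k2, k3⟩ := hinc b hb0 h1
        exact absurd (hc _ _ k1 k2) k3.ne
      · obtain ⟨k1, k2, k3⟩ := hbig b h1
        exact absurd (hc _ _ k2 k1) k3.ne
    · intro h
      subst h
      intro a a' ha ha'
      exact (hzero a ha).trans (hzero a' ha').symm
  · intro a b hb0 hb hP ha
    exact section_lt hκ3 hκ1 hb0 hb hP ha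
  · intro a₁ a₂ a₃ b h1 h3 h12 h23
    obtain ⟨p1, p2, p3, p4⟩ := id h1
    obtain ⟨q1, q2, q3, q4⟩ := id h3
    have hP : InP a₂ b := ⟨by linarith, p2, by linarith, by nlinarith⟩
    refine ⟨hP, ?_⟩
    rcases cover hP with h | h
    · exact (min_le_left _ _).trans (left_a hP h1 h12 h.1 h.2)
    · exact (min_le_right _ _).trans (right_anti h3 hP h23 le_rfl h.1 h.2)
  · intro a b₁ b₂ b₃ h1 h3 h12 h23
    obtain ⟨p1, p2, p3, p4⟩ := id h1
    obtain ⟨q1, q2, q3, q4⟩ := id h3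
    have hP : InP a b₂ := ⟨p1, by linarith, by linarith, by nlinarith⟩
    refine ⟨hP, ?_⟩
    rcases cover hP with h | h
    · exact (min_le_left _ _).trans (left_b hP h1 h12 h.1 h.2)
    · exact (min_le_right _ _).trans (right_anti h3 hP le_rfl h23 h.1 h.2)
  · intro a b hab
    exact entropy_le hab (ent_spec hab)
  · intro b hb hb1
    refine ⟨?_, ?_, ?_⟩
    · intro a' ha' a ha haa
      exact left_a ha.1 ha'.1 haa ha.2 hb1
    · intro a' ha' a ha haa
      exact right_anti ha.1 ha'.1 haa le_rfl ha'.2 hb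
    · ext a
      constructor
      · rintro ⟨hP, h⟩
        exact ((ent_eq_max_iff hP).1 h).1
      · intro h
        exact ⟨InP_square h.1 h.2 hb hb1, ent_square h.1 h.2 hb hb1⟩
  · intro b hb
    refine ⟨?_, hbig b hb⟩
    intro a' ha' a ha haa
    have hP : InP a' b := ha'
    obtain ⟨h1, h2, h3, h4⟩ := hP
    exact right_anti ha ha' haa le_rfl (by nlinarith) (by linarith)
  · intro a b hab hb
    exact ent_lt_left hab hb

end Pool.Agent.Results.MP_c34b65_an.SharpThreshold
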